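import Pool.Agent.Helper57_K9.Stmts
import Pool.Agent.Helper51_AWC.WrIrr
import Pool.Agent.Helper94_PP.LemQ

/-!
# Squad K9, row ADP: Adams operations for a prime

The character of `G wr C_r` on the `r`-th tensor power, extended by a linear character `lam` of
`C_r`, is restricted to `G × C_r`; at `(g, s)`, `s ≠ 0`, its value is `lam s * χ (g ^ r)`.
-/

open scoped BigOperators

noncomputable section

namespace Pool.Agent.PP.K9.H20

open Pool.Agent.Helper51_AWC Pool.Agent.Helper79_WRA Pool.Agent.PP Pool.Agent.PP.KF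

section

variable {r : ℕ} {G : Type} [Group G]

/-- the diagonal embedding of `G × C_r` -/
def iota (r : ℕ) (G : Type) [Group G] : G × Multiplicative (ZMod r) →* Wr r G where
  toFun x := ⟨fun _ => x.1, Multiplicative.toAdd x.2⟩
  map_one' := rfl
  map_mul' x y := by
    apply Wr.ext
    · funext i
      rfl
    · rfl

/-- the conjugating element -/
def cw (g : G) (s : ZMod r) : ZMod r → G := fun i => (g⁻¹) ^ (i * s⁻¹).val

variable [hr : Fact r.Prime]

theorem const_conj (g : G) {s : ZMod r} (hs : s ≠ 0) :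
    IsConj (single (g ^ r) s) (⟨fun _ => g, s⟩ : Wr r G) := by
  have hone : (1 : ZMod r).val = 1 := ZMod.val_one r
  have key : Wr.base r G (cw g s) * (⟨fun _ => g, s⟩ : Wr r G) * (Wr.base r G (cw g s))⁻¹ =
      single (g ^ r) s := by
    apply Wr.ext
    · funext i
      rw [Wr.conj_f]
      simp only [Wr.base_f, single, cw]
      by_cases hi : i = 0
      · subst hi
        rw [Pi.mulSingle_eq_same, zero_mul, ZMod.val_zero, pow_zero, one_mul, zero_sub, neg_mul,
          mul_inv_cancel₀ hs, ZMod.neg_val, if_neg one_ne_zero, hone, inv_pow, inv_inv,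
          ← pow_succ']
        congr 1
        have := hr.out.pos
        omega
      · rw [Pi.mulSingle_eq_of_ne hi]
        have h1 : (i - s) * s⁻¹ = i * s⁻¹ - 1 := by
          rw [sub_mul, mul_inv_cancel₀ hs]
        have h2 : i * s⁻¹ ≠ 0 := mul_ne_zero hi (inv_ne_zero hs)
        have h3 : 1 ≤ (i * s⁻¹).val := by
          have : (i * s⁻¹).val ≠ 0 := by
            rw [Ne, ZMod.val_eq_zero]
            exact h2
          omega
        rw [h1, ZMod.val_sub (by rw [hone]; exact h3), hone]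
        obtain ⟨k, hk⟩ : ∃ k, (i * s⁻¹).val = k + 1 := ⟨(i * s⁻¹).val - 1, by omega⟩
        rw [hk, Nat.add_sub_cancel, pow_succ]
        group
    · rw [Wr.conj_s]
      rfl
  exact (isConj_iff.2 ⟨_, key⟩).symm

/-- multiplicities -/
theorem mult [Fintype G] {θ : Wr r G → ℂ} (hθ : θ ∈ Irr (Wr r G)) {η : G → ℂ}
    (hη : η ∈ Irr G) :
    ∃ m : ℕ, ∑ x : G × Multiplicative (ZMod r), θ (iota r G x) * η (x.1)⁻¹ =
      m * (Fintype.card G * r : ℂ) := by
  classical
  obtain ⟨n, ρ, _, rfl⟩ := hθ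
  obtain ⟨k, σ, _, rfl⟩ := hη
  let ρ' : Representation ℂ (G × Multiplicative (ZMod r)) (Fin n → ℂ) := ρ.comp (iota r G)
  let σ' : Representation ℂ (G × Multiplicative (ZMod r)) (Fin k → ℂ) :=
    σ.comp (MonoidHom.fst G (Multiplicative (ZMod r)))
  have hc : (Nat.card (G × Multiplicative (ZMod r)) : ℂ) ≠ 0 := by
    exact_mod_cast Nat.card_pos.ne'
  have hinv := invertibleOfNonzero hc
  refine ⟨Module.finrank ℂ (Representation.IntertwiningMap σ' ρ'), ?_⟩
  have h1 := Representation.card_inv_mul_sum_char_mul_char_eq_finrank σ' ρ'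
  have h2 : (Nat.card (G × Multiplicative (ZMod r)) : ℂ) = Fintype.card G * r := by
    rw [Nat.card_prod, Nat.card_eq_fintype_card]
    have : Nat.card (Multiplicative (ZMod r)) = r := by
      rw [Nat.card_eq_fintype_card, Fintype.card_multiplicative, ZMod.card]
    rw [this]
    push_cast
    rfl
  rw [← h1, ← h2, mul_comm _ (Nat.card (G × Multiplicative (ZMod r)) : ℂ), ← mul_assoc,
    mul_inv_cancel₀ hc, one_mul]
  rfl

/-- the sum over the cyclic group -/
theorem sum_eq [Fintype G] {χ : G → ℂ} (hχ : χ ∈ Irr G) (η : G → ℂ)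
    (lam : AddChar (ZMod r) ℂ) :
    ∑ x : G × Multiplicative (ZMod r), extChar χ lam (iota r G x) * η (x.1)⁻¹ =
      ∑ g : G, piChar (fun _ : ZMod r => χ) (fun _ => g) * η g⁻¹ +
        (∑ g : G, χ (g ^ r) * η g⁻¹) * (∑ s : ZMod r, lam s - 1) := by
  classical
  have hsum : ∀ F : G × Multiplicative (ZMod r) → ℂ,
      ∑ x, F x = ∑ g : G, ∑ s : ZMod r, F (g, Multiplicative.ofAdd s) := by
    intro F
    rw [Fintype.sum_prod_type]
    refine Finset.sum_congr rfl fun g _ => ?_
    exact (Equiv.sum_comp Multiplicative.ofAdd (fun s => F (g, s))).symm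
  rw [hsum]
  have hlam : ∑ s : ZMod r, lam s - 1 = ∑ s ∈ Finset.univ.erase (0 : ZMod r), lam s := by
    rw [← Finset.add_sum_erase Finset.univ _ (Finset.mem_univ (0 : ZMod r)),
      AddChar.map_zero_eq_one]
    ring
  have hterm : ∀ g : G, ∑ s : ZMod r,
      extChar χ lam (iota r G (g, Multiplicative.ofAdd s)) * η (g, Multiplicative.ofAdd s).1⁻¹ =
      piChar (fun _ : ZMod r => χ) (fun _ => g) * η g⁻¹ +
        χ (g ^ r) * η g⁻¹ * ∑ s ∈ Finset.univ.erase (0 : ZMod r), lam s := by
    intro g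
    rw [← Finset.add_sum_erase Finset.univ _ (Finset.mem_univ (0 : ZMod r)), Finset.mul_sum]
    congr 1
    · have : iota r G (g, Multiplicative.ofAdd (0 : ZMod r)) = Wr.base r G (fun _ => g) := rfl
      rw [this, extChar_base hχ]
    · refine Finset.sum_congr rfl fun s hs => ?_
      have hs0 : s ≠ 0 := Finset.ne_of_mem_erase hs
      have h1 : iota r G (g, Multiplicative.ofAdd s) = (⟨fun _ => g, s⟩ : Wr r G) := rfl
      rw [h1, ← irr_isConj (extChar_mem hχ lam) (const_conj g hs0), extChar_single hχ lam hs0]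
      ring
  rw [Finset.sum_congr rfl fun g _ => hterm g, Finset.sum_add_distrib, hlam, Finset.sum_mul]

end

theorem adp : AdpStmt := by
  intro G _ _ r hr χ hχ η hη
  classical
  have : Fact r.Prime := ⟨hr⟩
  have := Fintype.ofFinite G
  have hr0 : (r : ℂ) ≠ 0 := by exact_mod_cast hr.ne_zero
  have hG : (Fintype.card G : ℂ) ≠ 0 := by exact_mod_cast Fintype.card_ne_zero
  obtain ⟨m1, h1⟩ := mult (r := r) (extChar_mem hχ (1 : AddChar (ZMod r) ℂ)) hη
  obtain ⟨m2, h2⟩ := mult (r := r) (extChar_mem hχ (ZMod.stdAddChar (N := r))) hη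
  rw [sum_eq hχ] at h1 h2
  have hs1 : ∑ s : ZMod r, (1 : AddChar (ZMod r) ℂ) s = r := by
    simp [AddChar.one_apply, ZMod.card]
  have hs2 : ∑ s : ZMod r, ZMod.stdAddChar (N := r) s = 0 := by
    apply AddChar.sum_eq_zero_of_ne_one
    intro h
    have h3 : ZMod.stdAddChar (N := r) 1 = ZMod.stdAddChar (N := r) 0 := by
      rw [h, AddChar.one_apply, AddChar.one_apply]
    have h4 := ZMod.injective_stdAddChar h3
    exact one_ne_zero h4
  rw [hs1] at h1
  rw [hs2] at h2
  obtain ⟨A, hA⟩ : ∃ A, A = ∑ g : G, χ (g ^ r) * η g⁻¹ := ⟨_, rfl⟩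
  rw [← hA] at h1 h2
  have h3 : A = (m1 - m2) * Fintype.card G := by
    have h4 : (r : ℂ) * A = r * ((m1 - m2) * Fintype.card G) := by linear_combination h1 - h2
    exact mul_left_cancel₀ hr0 h4
  refine ⟨(m1 : ℤ) - m2, ?_⟩
  unfold ipn
  rw [finsum_eq_sum_of_fintype]
  have h5 : ∑ x : G, χ (x ^ r) * starRingEnd ℂ (η x) = A := by
    rw [hA]
    exact Finset.sum_congr rfl fun g _ => by rw [Pool.Agent.PP.H94.irr_star hη]
  rw [h5, h3, Nat.card_eq_fintype_card]
  push_cast
  field_simp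

end Pool.Agent.PP.K9.H20
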